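import Pool.Agent.H940R3.Zah.D

set_option autoImplicit false

open MeasureTheory Filter Topology Pool.Agent.H940R3.VD

namespace Pool.Agent.Results.MP_a839f6_an.Equiv

/-- Conditions (R) and (Z) are equivalent in every dimension `n ≥ 1`, for every compact
`K ⊂ ℂⁿ` (of transfinite diameter `δ`) and every finite measure `μ` carried by `K`. -/
theorem result (n : ℕ) (hn : 1 ≤ n) (K : Set (Fin n → ℂ)) (hKc : IsCompact K)
    (μ : Measure (Fin n → ℂ)) [IsFiniteMeasure μ] (hμ : μ Kᶜ = 0) :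
    ∃ δ : ℝ, Tendsto (fun k => maxVdm K k ^ (1 / lk n k)) atTop (𝓝 δ) ∧
      (CondR K μ ↔ CondZ μ δ) :=
  Pool.Agent.H940R3.Zah.full hn hKc hμ

end Pool.Agent.Results.MP_a839f6_an.Equiv
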